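import Pool.Agent.Helper3.TGX.CHX
import Pool.Agent.Helper60.TGX.Defs
import Pool.Agent.Helper29.BL.EMB

/-!
# Project TGX (MP_a41896_nt): base change (S_BC)
-/

set_option autoImplicit false

open MvPolynomial

namespace Pool.Agent.Helper3.TGX

open WeierstrassCurve NumberField Height Height.AdmissibleAbsValues
open Pool.Agent.Helper29.BL
open Pool.Agent.Helper5.UN (cH CodimGT hv)
open Pool.Agent.Helper60.HC (xs)
open Pool.Agent.Helper60.T3 (WL)
open Pool.Agent.Helper19.TN (MAINW)

noncomputable section

/-- values of homogenizations under base change -/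
theorem hv_map {R S T σ : Type} [CommRing R] [CommRing S] [CommRing T] [Fintype σ]
    (φ : R →+* S) (ψ : S →+* T) (hφ : Function.Injective φ) (E : σ → ℕ) (f : MvPolynomial σ R)
    (y : σ → Fin 2 → T) : hv ψ E (map φ f) y = hv (ψ.comp φ) E f y := by
  unfold hv
  rw [support_map_of_injective _ hφ]
  refine Finset.sum_congr rfl fun m _ => ?_
  rw [coeff_map]
  rfl

/-- codimension under base change -/
theorem codim_bc {K K' : Type} [Field K] [Field K'] [Algebra K K'] {σ ι : Type} [Fintype σ]
    (D : ℕ) (f : ι → MvPolynomial σ K) (s : ℕ) (h : CodimGT D f s) :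
    CodimGT D (fun j => map (algebraMap K K') (f j)) s := by
  intro Ω _ _ y hy hf
  let _ : Algebra K Ω := ((algebraMap K' Ω).comp (algebraMap K K')).toAlgebra
  have : IsScalarTower K K' Ω := IsScalarTower.of_algebraMap_eq' rfl
  obtain ⟨T, hT, hT2⟩ := h Ω y hy fun j => by
    rw [← hf j, hv_map _ _ (algebraMap K K').injective]
    rfl
  refine ⟨T, hT, fun i => ?_⟩
  obtain ⟨p, hp, hp0⟩ := hT2 i
  have hle : ∀ a ∈ IntermediateField.adjoin K (T : Set Ω),
      a ∈ IntermediateField.adjoin K' (T : Set Ω) := by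
    intro a ha
    have h1 : IntermediateField.adjoin K (T : Set Ω) ≤
        (IntermediateField.adjoin K' (T : Set Ω)).restrictScalars K := by
      rw [IntermediateField.adjoin_le_iff]
      exact IntermediateField.subset_adjoin K' (T : Set Ω)
    exact h1 ha
  let j : IntermediateField.adjoin K (T : Set Ω) →+* IntermediateField.adjoin K' (T : Set Ω) :=
    { toFun := fun a => ⟨a.1, hle a.1 a.2⟩
      map_one' := rfl
      map_mul' := fun _ _ => rfl
      map_zero' := rfl
      map_add' := fun _ _ => rfl }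
  refine ⟨p.map j, (Polynomial.map_ne_zero_iff j.injective).2 hp, ?_⟩
  rw [Polynomial.aeval_def, Polynomial.eval₂_map]
  exact hp0

/-- a polynomial over `K` which does not vanish only where the given one over `K'` does not -/
theorem exists_down {K K' : Type} [Field K] [NumberField K] [Field K'] [NumberField K']
    [Algebra K K'] {σ : Type} (Z' : MvPolynomial σ K') (hZ' : Z' ≠ 0) :
    ∃ Z : MvPolynomial σ K, Z ≠ 0 ∧ ∀ x : σ → K, eval x Z ≠ 0 →
      eval (fun i => algebraMap K K' (x i)) Z' ≠ 0 := by
  classical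
  obtain ⟨m0, hm0⟩ := ne_zero_iff.1 hZ'
  set a := (coeff m0 Z')⁻¹ with ha
  set l : K' →ₗ[K] K := (Algebra.trace K K').comp (LinearMap.mulLeft K a) with hl
  have hl0 : l (coeff m0 Z') ≠ 0 := by
    have h1 : l (coeff m0 Z') = Algebra.trace K K' (algebraMap K K' 1) := by
      rw [hl, LinearMap.comp_apply, LinearMap.mulLeft_apply, ha, inv_mul_cancel₀ hm0,
        (algebraMap K K').map_one]
    rw [h1, Algebra.trace_algebraMap, nsmul_eq_mul, mul_one]
    exact_mod_cast (Module.finrank_pos (R := K) (M := K')).ne'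
  refine ⟨∑ m ∈ Z'.support, monomial m (l (coeff m Z')), ?_, ?_⟩
  · intro h0
    have h1 := congrArg (coeff m0) h0
    rw [coeff_sum, coeff_zero] at h1
    simp only [coeff_monomial] at h1
    rw [Finset.sum_ite_eq' Z'.support m0, if_pos (mem_support_iff.2 hm0)] at h1
    exact hl0 h1
  · intro x hx h0
    apply hx
    have h1 : eval x (∑ m ∈ Z'.support, monomial m (l (coeff m Z'))) =
        l (eval (fun i => algebraMap K K' (x i)) Z') := by
      rw [map_sum, eval_eq, map_sum]
      refine Finset.sum_congr rfl fun m _ => ?_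
      rw [eval_monomial]
      have h2 : (coeff m Z' * ∏ i ∈ m.support, algebraMap K K' (x i) ^ m i) =
          (∏ i ∈ m.support, x i ^ m i) • coeff m Z' := by
        rw [Algebra.smul_def, map_prod, mul_comm]
        congr 1
        refine Finset.prod_congr rfl fun i _ => ?_
        rw [map_pow]
      rw [h2, map_smul, smul_eq_mul, mul_comm]
      rfl
    rw [h1, h0, map_zero]

/-- the height of the coordinate in an extension -/
theorem hx_bc {K K' : Type} [Field K] [NumberField K] [Field K'] [NumberField K']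
    [Algebra K K'] (a : K) : logHeight₁ (algebraMap K K' a) =
      (Module.finrank K K' : ℝ) * logHeight₁ a :=
  Pool.Agent.Helper49.SE.hte Pool.Agent.Helper82.SE.pli Pool.Agent.Helper66.SE.plf K K' a

theorem fg_map {G H : Type} [AddGroup G] [AddGroup H] (φ : G →+ H) {Γ : AddSubgroup G}
    (h : Γ.FG) : (Γ.map φ).FG := by
  classical
  obtain ⟨S, hS⟩ := h
  refine ⟨S.image φ, ?_⟩
  rw [Finset.coe_image, ← AddMonoidHom.map_closure, hS]

/-- **base change** -/
theorem th_BC : Pool.Agent.Helper60.TGX.S_BC := by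
  intro K K' _ _ _ _ _ _ _ σ _ _ W hW hM Γ hΓ D ι _ f hf hcod ε hε
  set φ : ∀ i, (W i).Point →+ (WL K' (W i)).Point := fun i =>
    { toFun := mapPt (algebraMap K K') rfl
      map_zero' := rfl
      map_add' := fun P Q => mapPt_add (algebraMap K K') rfl P Q } with hφ
  set d : ℝ := (Module.finrank K K' : ℝ) with hd
  have hd0 : 0 < d := by
    rw [hd]
    exact_mod_cast Module.finrank_pos (R := K) (M := K')
  obtain ⟨Z', c, hZ', hc, h⟩ := hM (fun i => (Γ i).map (φ i)) (fun i => fg_map (φ i) (hΓ i)) D ι
    (fun j => map (algebraMap K K') (f j)) (fun j i => by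
      refine le_trans ?_ (hf j i)
      rw [degreeOf_eq_sup, degreeOf_eq_sup]
      exact Finset.sup_mono (support_map_subset _ _)) (codim_bc (K' := K') D f 1 hcod) (ε / d)
    (div_pos hε hd0)
  obtain ⟨Z, hZ, hZZ⟩ := exists_down (K := K) Z' hZ'
  refine ⟨Z, c, hZ, hc, fun z hz hz0 hzZ => ?_⟩
  have hxs : xs (fun i => φ i (z i)) = fun i => algebraMap K K' (xs z i) := by
    funext i
    exact xc_mapPt (algebraMap K K') rfl (z i)
  have h1 := h (fun i => φ i (z i)) (fun i => AddSubgroup.mem_map_of_mem _ (hz i))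
    (fun i h0 => hz0 i (mapPt_eq_zero (algebraMap K K') rfl (z i) h0)) (by
      rw [hxs]
      exact hZZ _ hzZ)
  rw [hxs] at h1
  refine (cH_le (K' := K') D f hf (xs z)).trans (h1.trans ?_)
  have h2 : ∀ i, hx (φ i (z i)) = d * hx (z i) := by
    intro i
    have h3 : xc (φ i (z i)) = algebraMap K K' (xc (z i)) :=
      xc_mapPt (algebraMap K K') rfl (z i)
    unfold hx
    rw [h3]
    exact hx_bc _
  simp only [h2]
  rw [← Finset.mul_sum, ← mul_assoc, div_mul_cancel₀ _ hd0.ne']

end

end Pool.Agent.Helper3.TGX
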