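import Pool.Agent.Helper16.HC.CHB
import Pool.Agent.Helper66.SE.PLF
import Pool.Agent.Helper82.SE.PLI
import Pool.Agent.Helper49.SE.HTE
import Pool.Agent.Helper68.VN.AsmPG

/-!
# Project TGX (MP_a41896_nt): heights in an extension of number fields
-/

set_option autoImplicit false

open MvPolynomial

namespace Pool.Agent.Helper3.TGX

open NumberField Height Height.AdmissibleAbsValues IsDedekindDomain
open Pool.Agent.Helper29.BL
open Pool.Agent.Helper5.UN (cH)
open Pool.Agent.Helper60.HC (rhs)

noncomputable section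

section loc

variable {K K' : Type} [Field K] [Field K'] [Algebra K K'] {σ ι : Type} [Fintype σ]

/-- the local term of `cH` -/
def lt (D : ℕ) (f : ι → MvPolynomial σ K) (x : σ → K) (v : AbsoluteValue K ℝ) : ℝ :=
  Real.posLog ((∏ i, Mv v (x i)) ^ D / ⨆ j, v (eval x (f j)))

theorem lt_nonneg (D : ℕ) (f : ι → MvPolynomial σ K) (x : σ → K) (v : AbsoluteValue K ℝ) :
    0 ≤ lt D f x v := Real.posLog_nonneg

theorem lt_pow (D : ℕ) (f : ι → MvPolynomial σ K) (x : σ → K) (v : AbsoluteValue K ℝ)
    (w : AbsoluteValue K' ℝ) (n : ℕ) (hn : n ≠ 0) (h : ∀ a : K, w (algebraMap K K' a) = v a ^ n) :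
    lt D (fun j => map (algebraMap K K') (f j)) (fun i => algebraMap K K' (x i)) w =
      n * lt D f x v := by
  have h1 : ∀ a : K, Mv w (algebraMap K K' a) = Mv v a ^ n := by
    intro a
    unfold Mv
    rw [h a]
    rcases le_total (1 : ℝ) (v a) with h2 | h2
    · rw [max_eq_right h2, max_eq_right (one_le_pow₀ h2)]
    · rw [max_eq_left h2, max_eq_left (pow_le_one₀ (v.nonneg _) h2), one_pow]
  have h3 : ∀ j, w (eval (fun i => algebraMap K K' (x i)) (map (algebraMap K K') (f j))) =
      v (eval x (f j)) ^ n := by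
    intro j
    have h4 : eval (fun i => algebraMap K K' (x i)) (map (algebraMap K K') (f j)) =
        algebraMap K K' (eval x (f j)) := by
      rw [eval_map]
      exact (eval₂_comp (algebraMap K K') x (f j)).symm
    rw [h4, h]
  unfold lt
  simp only [h1, h3]
  rw [Finset.prod_pow, ← Real.iSup_pow_of_ne_zero (fun j => v.nonneg _) hn, ← pow_mul, mul_comm n D,
    pow_mul, ← div_pow, Real.posLog_pow]

end loc

section glob

variable {K K' : Type} [Field K] [NumberField K] [Field K'] [NumberField K'] [Algebra K K']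
  {σ ι : Type} [Fintype σ] [Fintype ι]

theorem exists_inf (v : InfinitePlace K) : ∃ w : InfinitePlace K', v.mult ≤ w.mult ∧
    w.comap (algebraMap K K') = v := by
  obtain ⟨w, hw⟩ := InfinitePlace.comap_surjective (k := K) (K := K') v
  refine ⟨w, ?_, hw⟩
  rw [← hw]
  exact InfinitePlace.mult_comap_le _ _

theorem exists_fin' (v : FinitePlace K) : ∃ w : FinitePlace K',
    w.maximalIdeal.asIdeal.LiesOver v.maximalIdeal.asIdeal := by
  have hmax : v.maximalIdeal.asIdeal.IsMaximal := v.maximalIdeal.isMaximal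
  obtain ⟨P, hP, h⟩ := Ideal.exists_maximal_ideal_liesOver_of_isIntegral (S := 𝓞 K')
    v.maximalIdeal.asIdeal
  have hb : P ≠ ⊥ := Ideal.ne_bot_of_liesOver_of_ne_bot v.maximalIdeal.ne_bot P
  refine ⟨FinitePlace.mk ⟨P, hP.isPrime, hb⟩, ?_⟩
  rw [FinitePlace.maximalIdeal_mk]
  exact h

theorem pow_fin (v : FinitePlace K) (w : FinitePlace K')
    (h : w.maximalIdeal.asIdeal.LiesOver v.maximalIdeal.asIdeal) : ∃ n : ℕ, n ≠ 0 ∧
    ∀ a : K, w (algebraMap K K' a) = v a ^ n := by
  refine ⟨_, ?_, Pool.Agent.Helper66.SE.place_liesOver v w h⟩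
  have hmax : v.maximalIdeal.asIdeal.IsMaximal := v.maximalIdeal.isMaximal
  have hf : v.maximalIdeal.asIdeal.inertiaDeg' w.maximalIdeal.asIdeal ≠ 0 :=
    Ideal.inertiaDeg'_ne_zero _ _
  intro h0
  have h1 := Pool.Agent.Helper66.SE.place_liesOver v w h
  rw [h0] at h1
  -- an element of the prime of `v`
  obtain ⟨a, ha, ha0⟩ := Submodule.exists_mem_ne_zero_of_ne_bot v.maximalIdeal.ne_bot
  have h2 : algebraMap (𝓞 K) (𝓞 K') a ∈ w.maximalIdeal.asIdeal := by
    have h3 := h.over
    rw [h3] at ha
    exact ha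
  have h4 : w (algebraMap K K' (a : K)) < 1 := by
    have h5 : algebraMap K K' (a : K) = ((algebraMap (𝓞 K) (𝓞 K') a : 𝓞 K') : K') := rfl
    rw [h5]
    have h6 := (FinitePlace.norm_lt_one_iff_mem K' w.maximalIdeal (algebraMap (𝓞 K) (𝓞 K') a)).2 h2
    rw [← FinitePlace.norm_embedding_eq w]
    exact h6
  rw [h1, pow_zero] at h4
  exact lt_irrefl _ h4

/-- **heights with respect to a centre in an extension** -/
theorem cH_le (D : ℕ) (f : ι → MvPolynomial σ K) (hf : ∀ j i, degreeOf i (f j) ≤ D) (x : σ → K) :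
    cH D f x ≤ cH D (fun j => map (algebraMap K K') (f j)) (fun i => algebraMap K K' (x i)) := by
  classical
  by_cases h0 : ∀ j, eval x (f j) = 0
  · have h1 : cH D f x = 0 := by
      unfold cH PS
      have h2 : ∀ v : AbsoluteValue K ℝ,
          Real.posLog ((∏ i, Mv v (x i)) ^ D / ⨆ j, v (eval x (f j))) = 0 := by
        intro v
        have h3 : (⨆ j, v (eval x (f j))) = 0 := by
          simp only [h0, map_zero]
          exact Real.iSup_const_zero
        rw [h3, div_zero]
        exact Real.posLog_zero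
      simp only [h2]
      simp
    rw [h1]
    exact Pool.Agent.Helper68.VN.cH_nn _ _ _
  push Not at h0
  set f' : ι → MvPolynomial σ K' := fun j => map (algebraMap K K') (f j) with hf'
  set x' : σ → K' := fun i => algebraMap K K' (x i) with hx'
  have hf'd : ∀ j i, degreeOf i (f' j) ≤ D := by
    intro j i
    rw [hf']
    refine le_trans ?_ (hf j i)
    rw [degreeOf_eq_sup, degreeOf_eq_sup]
    exact Finset.sup_mono (support_map_subset _ _)
  have h0' : ∃ j, eval x' (f' j) ≠ 0 := by
    obtain ⟨j0, hj0⟩ := h0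
    refine ⟨j0, ?_⟩
    have h4 : eval x' (f' j0) = algebraMap K K' (eval x (f j0)) := by
      rw [hf', hx']
      simp only
      rw [eval_map]
      exact (eval₂_comp (algebraMap K K') x (f j0)).symm
    rw [h4, Ne, map_eq_zero_iff _ (algebraMap K K').injective]
    exact hj0
  have hlog : ∀ w : AbsoluteValue K' ℝ, lt D f' x' w = - Real.log (rhs f' D w x') := by
    intro w
    have hM : 0 < (∏ i, Mv w (x' i)) ^ D := pow_pos (Pool.Agent.Helper16.HC.CHB.prodMv_pos w x') D
    obtain ⟨j0, hj0⟩ := h0'
    have hS : 0 < ⨆ j, w (eval x' (f' j)) :=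
      (w.pos hj0).trans_le (le_ciSup (f := fun j => w (eval x' (f' j)))
        (Set.finite_range _).bddAbove j0)
    have h1 : Real.log ((∏ i, Mv w (x' i)) ^ D / ⨆ j, w (eval x' (f' j))) =
        - Real.log ((⨆ j, w (eval x' (f' j))) / (∏ i, Mv w (x' i)) ^ D) := by
      rw [← Real.log_inv, inv_div]
    have h2 : 0 < (⨆ j, w (eval x' (f' j))) / (∏ i, Mv w (x' i)) ^ D := div_pos hS hM
    rw [lt, Real.posLog, h1, rhs]
    rcases le_total 1 ((⨆ j, w (eval x' (f' j))) / (∏ i, Mv w (x' i)) ^ D) with h | h
    · rw [min_eq_left h, Real.log_one, max_eq_left, neg_zero]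
      have := Real.log_nonneg h
      linarith
    · rw [min_eq_right h, max_eq_right]
      have := Real.log_nonpos h2.le h
      linarith
  obtain ⟨c, -, hc⟩ := Pool.Agent.Helper16.HC.CHB.t K' σ D ι f' hf'd
  have hFS' : FS (lt D f' x') := by
    have h1 := (hc x' h0').2.1.neg
    have h2 : lt D f' x' = fun w => - Real.log (rhs f' D w x') := funext hlog
    rw [h2]
    exact h1
  -- the places above
  choose wi hwi1 hwi2 using fun v : InfinitePlace K => exists_inf (K' := K') v
  choose wf hwf using fun v : FinitePlace K => exists_fin' (K' := K') v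
  choose n hn hwn using fun v : FinitePlace K => pow_fin v (wf v) (hwf v)
  have hinj : Function.Injective wi := by
    intro v v' h
    rw [← hwi2 v, ← hwi2 v', h]
  have hinjf : Function.Injective wf := by
    intro v v' h
    exact Pool.Agent.Results.MP_e44225_nt.SUnitDisproof.finite_below_unique v v' (wf v) (hwf v)
      (h ▸ hwf v')
  have hFin : ∀ v : FinitePlace K, lt D f x v.val ≤ lt D f' x' (wf v).val := by
    intro v
    have h1 := lt_pow (K' := K') D f x v.val (wf v).val (n v) (hn v) (hwn v)
    have h2 : lt D f' x' (wf v).val = (n v : ℝ) * lt D f x v.val := h1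
    rw [h2]
    have h3 : (1 : ℝ) ≤ n v := by exact_mod_cast Nat.one_le_iff_ne_zero.2 (hn v)
    nlinarith [lt_nonneg D f x v.val]
  have hInf : ∀ v : InfinitePlace K, lt D f x v.val = lt D f' x' (wi v).val := by
    intro v
    have h1 := lt_pow (K' := K') D f x v.val (wi v).val 1 one_ne_zero (fun a => by
      rw [pow_one]
      have h2 : (wi v).comap (algebraMap K K') = v := hwi2 v
      have h3 : ((wi v).comap (algebraMap K K')) a = v a := by rw [h2]
      exact h3)
    rw [Nat.cast_one, one_mul] at h1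
    exact h1.symm
  have e1 : cH D f x = (∑ v : InfinitePlace K, v.mult • lt D f x v.val) +
      ∑ᶠ v : FinitePlace K, lt D f x v.val := by
    unfold cH PS
    exact congrArg₂ _ (NumberField.sum_archAbsVal_eq (lt D f x))
      (NumberField.sum_nonarchAbsVal_eq (lt D f x))
  have e2 : cH D f' x' = (∑ w : InfinitePlace K', w.mult • lt D f' x' w.val) +
      ∑ᶠ w : FinitePlace K', lt D f' x' w.val := by
    unfold cH PS
    exact congrArg₂ _ (NumberField.sum_archAbsVal_eq (lt D f' x'))
      (NumberField.sum_nonarchAbsVal_eq (lt D f' x'))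
  rw [e1, e2]
  refine add_le_add ?_ ?_
  · calc ∑ v : InfinitePlace K, v.mult • lt D f x v.val
        ≤ ∑ v : InfinitePlace K, (wi v).mult • lt D f' x' (wi v).val := by
          refine Finset.sum_le_sum fun v _ => ?_
          rw [hInf v, nsmul_eq_mul, nsmul_eq_mul]
          refine mul_le_mul_of_nonneg_right ?_ (lt_nonneg _ _ _ _)
          exact_mod_cast hwi1 v
      _ = ∑ w ∈ Finset.univ.image wi, w.mult • lt D f' x' w.val := by
          rw [Finset.sum_image fun a _ b _ h => hinj h]
      _ ≤ ∑ w : InfinitePlace K', w.mult • lt D f' x' w.val :=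
          Finset.sum_le_sum_of_subset_of_nonneg (Finset.subset_univ _) fun w _ _ => by
            rw [nsmul_eq_mul]
            exact mul_nonneg (Nat.cast_nonneg _) (lt_nonneg _ _ _ _)
  · have hS' : (Function.support fun w : FinitePlace K' => lt D f' x' w.val).Finite := hFS'
    have hS : (Function.support fun v : FinitePlace K => lt D f x v.val).Finite := by
      refine Set.Finite.of_finite_image (f := wf) (hS'.subset ?_) hinjf.injOn
      rintro _ ⟨v, hv, rfl⟩
      have h1 : 0 < lt D f x v.val := lt_of_le_of_ne (lt_nonneg _ _ _ _) (Ne.symm hv)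
      exact (h1.trans_le (hFin v)).ne'
    rw [finsum_eq_sum_of_support_subset _ (s := hS.toFinset) (by simp),
      finsum_eq_sum_of_support_subset _ (s := hS'.toFinset) (by simp)]
    calc ∑ v ∈ hS.toFinset, lt D f x v.val ≤ ∑ v ∈ hS.toFinset, lt D f' x' (wf v).val :=
          Finset.sum_le_sum fun v _ => hFin v
      _ = ∑ w ∈ hS.toFinset.image wf, lt D f' x' w.val := by
          rw [Finset.sum_image fun a _ b _ h => hinjf h]
      _ ≤ ∑ w ∈ hS'.toFinset, lt D f' x' w.val := by
          refine Finset.sum_le_sum_of_subset_of_nonneg ?_ fun w _ _ => lt_nonneg _ _ _ _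
          intro w hw
          rw [Finset.mem_image] at hw
          obtain ⟨v, hv, rfl⟩ := hw
          rw [Set.Finite.mem_toFinset] at hv ⊢
          have h1 : 0 < lt D f x v.val := lt_of_le_of_ne (lt_nonneg _ _ _ _) (Ne.symm hv)
          exact (h1.trans_le (hFin v)).ne'

end glob

end

end Pool.Agent.Helper3.TGX
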