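import Pool.Agent.Helper3.TGX.BC
import Pool.Agent.Helper68.TG.MainM
import Pool.Agent.Helper4.TG.HTAB
import Pool.Agent.Helper92.PN.CenAll

/-!
# Project TGX (MP_a41896_nt): isogenies (S_ISO)
-/

set_option autoImplicit false

open MvPolynomial

namespace Pool.Agent.Helper3.TGX

open WeierstrassCurve NumberField Height Height.AdmissibleAbsValues
open Pool.Agent.Helper29.BL
open Pool.Agent.Helper5.UN (cH CodimGT hv)
open Pool.Agent.Helper60.HC (xs)
open Pool.Agent.Helper60.T3 (WL)
open Pool.Agent.Helper19.TN (MAINW)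
open Pool.Agent.Helper60.TGX (HasIso)
open Pool.Agent.Helper68.TG.M (PairM)

noncomputable section

theorem pairM_B {K : Type} [Field K] {A B : Polynomial K} (h : PairM A B) : B ≠ 0 := by
  rintro rfl
  have h1 : IsUnit A := isCoprime_zero_right.1 h.cop
  have h2 := h.deg
  rw [Polynomial.natDegree_eq_zero_of_isUnit h1] at h2
  exact Nat.not_lt_zero _ h2

theorem eval_aevalX {K : Type} [Field K] {σ : Type} (x : σ → K) (b : σ) (B : Polynomial K) :
    eval x (Polynomial.aeval (X b : MvPolynomial σ K) B) = Polynomial.eval (x b) B := by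
  have h := Polynomial.aeval_algHom_apply (MvPolynomial.aeval x : MvPolynomial σ K →ₐ[K] K)
    (X b : MvPolynomial σ K) B
  rw [MvPolynomial.aeval_X] at h
  rw [← Polynomial.coe_aeval_eq_eval, h]
  rfl

theorem aevalX_ne {K : Type} [Field K] [CharZero K] {σ : Type} (b : σ) (B : Polynomial K)
    (hB : B ≠ 0) : Polynomial.aeval (X b : MvPolynomial σ K) B ≠ 0 := by
  intro h0
  apply hB
  have : Infinite K := inferInstance
  refine Polynomial.funext fun t => ?_
  have h1 := eval_aevalX (fun _ : σ => t) b B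
  rw [h0, map_zero] at h1
  rw [← h1, Polynomial.eval_zero]

/-- **one isogeny** -/
theorem step {K : Type} [Field K] [NumberField K] [DecidableEq K] {σ : Type} [Fintype σ]
    [DecidableEq σ] (W W1 : σ → Affine K) (ψ : ∀ i, (W i).Point →+ (W1 i).Point) (b : σ)
    (A B : Polynomial K) (hAB : PairM A B)
    (hb : ∀ P : (W b).Point, P ≠ 0 → Polynomial.eval (xc P) B ≠ 0 → ψ b P ≠ 0 ∧
      Polynomial.eval (xc P) B * xc (ψ b P) = Polynomial.eval (xc P) A)
    (hi : ∀ i, i ≠ b → ∀ P : (W i).Point, P ≠ 0 → ψ i P ≠ 0 ∧ xc (ψ i P) = xc P)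
    (hM : MAINW K σ W1) : MAINW K σ W := by
  intro Γ hΓ D ι _ f hf hcod ε hε
  obtain ⟨C, hC⟩ := Pool.Agent.Helper4.TG.HTAB.t K A B hAB.cop (pairM_B hAB) hAB.deg
  set n : ℝ := (A.natDegree : ℝ) with hn
  have hn0 : 0 ≤ n := Nat.cast_nonneg _
  obtain ⟨E, J, _, f', c, hf', hcod', hc, htr⟩ := Pool.Agent.Helper68.TG.M.th_MTRF K A B hAB σ D ι f
    hf hcod b
  have hε' : 0 < ε / (n + 1) := div_pos hε (by linarith)
  obtain ⟨Z', c', hZ', hc', hmain⟩ := hM (fun i => (Γ i).map (ψ i)) (fun i => fg_map (ψ i) (hΓ i)) E J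
    f' hf' hcod' (ε / (n + 1)) hε'
  obtain ⟨j0, hj0⟩ := Pool.Agent.Helper92.PN.exists_ne_zero E 1 f' hf' hcod'
  obtain ⟨Z1, hZ1, hZ1'⟩ := Pool.Agent.Helper68.TG.M.th_MGENP K A B hAB σ b (Z' * f' j0)
    (mul_ne_zero hZ' hj0)
  have hBX : Polynomial.aeval (X b : MvPolynomial σ K) B ≠ 0 :=
    aevalX_ne b B (pairM_B hAB)
  refine ⟨Z1 * Polynomial.aeval (X b : MvPolynomial σ K) B, c + c' + ε / (n + 1) * |C|,
    mul_ne_zero hZ1 hBX, by positivity, fun z hz hz0 hzZ => ?_⟩
  rw [map_mul] at hzZ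
  have hz1 := left_ne_zero_of_mul hzZ
  have hz2 : Polynomial.eval (xs z b) B ≠ 0 := by
    have h1 := right_ne_zero_of_mul hzZ
    have h2 : eval (xs z) (Polynomial.aeval (X b : MvPolynomial σ K) B) =
        Polynomial.eval (xs z b) B := eval_aevalX (xs z) b B
    rwa [h2] at h1
  obtain ⟨hb0, hb1⟩ := hb (z b) (hz0 b) hz2
  have hxs : xs (fun i => ψ i (z i)) = Function.update (xs z) b (xc (ψ b (z b))) := by
    funext i
    by_cases h : i = b
    · subst h
      rw [Function.update_self]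
      rfl
    · rw [Function.update_of_ne h]
      exact (hi i h (z i) (hz0 i)).2
  have hne : eval (xs (fun i => ψ i (z i))) (Z' * f' j0) ≠ 0 := by
    intro h0
    rw [hxs] at h0
    exact hz1 (hZ1' (xs z) _ hb1 h0)
  rw [map_mul] at hne
  have h3 := hmain (fun i => ψ i (z i)) (fun i => AddSubgroup.mem_map_of_mem _ (hz i))
    (fun i => by
      by_cases h : i = b
      · subst h
        exact hb0
      · exact (hi i h (z i) (hz0 i)).1) (left_ne_zero_of_mul hne)
  have h4 := (htr (xs z) (xc (ψ b (z b))) hb1 ⟨j0, by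
    rw [← hxs]
    exact right_ne_zero_of_mul hne⟩).2
  rw [← hxs] at h4
  -- heights
  have hnn : ∀ i, 0 ≤ hx (z i) := fun i => zero_le_logHeight₁ _
  have h5 : hx (ψ b (z b)) ≤ n * hx (z b) + |C| := by
    have h6 := hC (xc (z b)) hz2
    have h7 : xc (ψ b (z b)) = Polynomial.eval (xc (z b)) A / Polynomial.eval (xc (z b)) B := by
      have hz2' : Polynomial.eval (xc (z b)) B ≠ 0 := hz2
      rw [eq_div_iff hz2', ← hb1, mul_comm]
    rw [← h7] at h6
    have h8 := (abs_le.1 h6).2
    have h9 := le_abs_self C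
    have h10 : hx (ψ b (z b)) = logHeight₁ (xc (ψ b (z b))) := rfl
    have h11 : hx (z b) = logHeight₁ (xc (z b)) := rfl
    rw [h10, h11]
    linarith
  have h6 : ∀ i, i ≠ b → hx (ψ i (z i)) = hx (z i) := by
    intro i h
    unfold hx
    rw [(hi i h (z i) (hz0 i)).2]
  have h7 : ∑ i, hx (ψ i (z i)) ≤ (n + 1) * ∑ i, hx (z i) + |C| := by
    rw [← Finset.add_sum_erase _ _ (Finset.mem_univ b),
      ← Finset.add_sum_erase _ (fun i => hx (z i)) (Finset.mem_univ b)]
    have h8 : ∑ i ∈ Finset.univ.erase b, hx (ψ i (z i)) = ∑ i ∈ Finset.univ.erase b, hx (z i) :=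
      Finset.sum_congr rfl fun i hi' => h6 i (Finset.ne_of_mem_erase hi')
    rw [h8]
    have h9 : 0 ≤ ∑ i ∈ Finset.univ.erase b, hx (z i) := Finset.sum_nonneg fun i _ => hnn i
    nlinarith [hnn b]
  have h8 : ε / (n + 1) * ∑ i, hx (ψ i (z i)) ≤
      ε / (n + 1) * ((n + 1) * ∑ i, hx (z i) + |C|) := mul_le_mul_of_nonneg_left h7 hε'.le
  have h9 : ε / (n + 1) * ((n + 1) * ∑ i, hx (z i) + |C|) =
      ε * ∑ i, hx (z i) + ε / (n + 1) * |C| := by
    have : n + 1 ≠ 0 := by linarith
    field_simp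
  rw [h9] at h8
  linarith

/-- **isogenies** -/
theorem th_ISO : Pool.Agent.Helper60.TGX.S_ISO := by
  intro K _ _ _ σ _ _ W W' _ _ hiso hM
  have key : ∀ S : Finset σ, ∀ W : σ → Affine K, (∀ i ∈ S, HasIso (W i) (W' i)) →
      (∀ i, i ∉ S → W i = W' i) → MAINW K σ W := by
    intro S
    induction S using Finset.induction_on with
    | empty =>
      intro W _ h
      have : W = W' := funext fun i => h i (Finset.notMem_empty i)
      rw [this]
      exact hM
    | insert b S hbS ih =>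
      intro W h1 h2
      obtain ⟨φ, A, B, hAB, hφ⟩ := h1 b (Finset.mem_insert_self b S)
      set W1 : σ → Affine K := Function.update W b (W' b) with hW1
      have e1 : W1 b = W' b := by rw [hW1, Function.update_self]
      have e2 : ∀ i, i ≠ b → W1 i = W i := fun i hi => by rw [hW1, Function.update_of_ne hi]
      have hM1 : MAINW K σ W1 := by
        refine ih W1 (fun i hi => ?_) (fun i hi => ?_)
        · have hib : i ≠ b := fun h => hbS (h ▸ hi)
          rw [e2 i hib]
          exact h1 i (Finset.mem_insert_of_mem hi)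
        · by_cases hib : i = b
          · rw [hib]
            exact e1
          · rw [e2 i hib]
            refine h2 i fun h => ?_
            rcases Finset.mem_insert.1 h with h | h
            · exact hib h
            · exact hi h
      have hψ : ∀ i, ∃ ψ : (W i).Point →+ (W1 i).Point,
          (i = b → ∀ P : (W i).Point, P ≠ 0 → Polynomial.eval (xc P) B ≠ 0 → ψ P ≠ 0 ∧
            Polynomial.eval (xc P) B * xc (ψ P) = Polynomial.eval (xc P) A) ∧
          (i ≠ b → ∀ P : (W i).Point, P ≠ 0 → ψ P ≠ 0 ∧ xc (ψ P) = xc P) := by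
        intro i
        by_cases hib : i = b
        · subst hib
          rw [e1]
          exact ⟨φ, fun _ => hφ, fun h => absurd rfl h⟩
        · rw [e2 i hib]
          exact ⟨AddMonoidHom.id _, fun h => absurd h hib, fun _ P hP => ⟨hP, rfl⟩⟩
      choose ψ hψ1 hψ2 using hψ
      exact step W W1 ψ b A B hAB (hψ1 b rfl) hψ2 hM1
  exact key Finset.univ W (fun i _ => hiso i) (fun i hi => absurd (Finset.mem_univ i) hi)

end

end Pool.Agent.Helper3.TGX
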