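import Pool.Agent.Helper60.TGX.Defs

/-!
# Project TGX (MP_a41896_nt): towers, S_NIBC, S_REFL
-/

set_option autoImplicit false

namespace Pool.Agent.Helper3.TGX

open WeierstrassCurve
open Pool.Agent.Helper60.T3 (WL)
open Pool.Agent.Helper42.TN (NonIsog)

noncomputable section

theorem th_NIBC : Pool.Agent.Helper60.TGX.S_NIBC := by
  intro K K' _ _ _ W W' h Ω _ _ _ F _ _ _ _ x y x' y' hx hE hE' hx' hy'
  let i1 : Algebra K Ω := ((algebraMap K' Ω).comp (algebraMap K K')).toAlgebra
  let i2 : Algebra K F := ((algebraMap K' F).comp (algebraMap K K')).toAlgebra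
  have i3 : IsScalarTower K Ω F := by
    refine IsScalarTower.of_algebraMap_eq fun r => ?_
    exact IsScalarTower.algebraMap_apply K' Ω F (algebraMap K K' r)
  exact h Ω F x y x' y' hx hE hE' hx' hy'

theorem refl_aux {K : Type} [Field K] (W : Affine K) (Ω F : Type) [Field Ω] [IsAlgClosed Ω]
    [Field F] [IsAlgClosed F] [Algebra K Ω] [Algebra K F] [Algebra Ω F] [IsScalarTower K Ω F]
    (x : F) (hx : Transcendental Ω x) : ¬ NonIsog W W := by
  intro h
  set V : Affine F := (W.map (algebraMap K F)).toAffine with hV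
  obtain ⟨y, hy⟩ := IsAlgClosed.exists_root
    (Polynomial.X ^ 2 + Polynomial.C (V.a₁ * x + V.a₃) * Polynomial.X -
      Polynomial.C (x ^ 3 + V.a₂ * x ^ 2 + V.a₄ * x + V.a₆)) (by
      have : (Polynomial.X ^ 2 + Polynomial.C (V.a₁ * x + V.a₃) * Polynomial.X -
        Polynomial.C (x ^ 3 + V.a₂ * x ^ 2 + V.a₄ * x + V.a₆) : Polynomial F).degree = 2 := by
        compute_degree!
      rw [this]
      decide)
  have hE : V.Equation x y := by
    rw [Affine.equation_iff]
    unfold Polynomial.IsRoot at hy
    simp only [Polynomial.eval_sub, Polynomial.eval_add, Polynomial.eval_mul,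
      Polynomial.eval_pow, Polynomial.eval_X, Polynomial.eval_C] at hy
    linear_combination hy
  obtain ⟨a, ha⟩ := h Ω F x y x y hx hE hE
    (IntermediateField.subset_adjoin _ _ (by simp))
    (IntermediateField.subset_adjoin _ _ (by simp))
  refine hx ?_
  rw [← ha]
  exact isAlgebraic_algebraMap a

theorem th_REFL : Pool.Agent.Helper60.TGX.S_REFL := by
  intro K _ _ W _
  let i1 : Algebra K (AlgebraicClosure (RatFunc (AlgebraicClosure K))) :=
    ((algebraMap (AlgebraicClosure K) (AlgebraicClosure (RatFunc (AlgebraicClosure K)))).comp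
      (algebraMap K (AlgebraicClosure K))).toAlgebra
  have i2 : @IsScalarTower K (AlgebraicClosure K)
      (AlgebraicClosure (RatFunc (AlgebraicClosure K))) _ _ i1.toSMul :=
    @IsScalarTower.of_algebraMap_eq' _ _ _ _ _ _ _ _ i1 rfl
  refine @refl_aux K _ W (AlgebraicClosure K) (AlgebraicClosure (RatFunc (AlgebraicClosure K)))
    _ _ _ _ _ i1 _ i2 (algebraMap (RatFunc (AlgebraicClosure K)) _ RatFunc.X) ?_
  intro h
  have h1 : IsAlgebraic (AlgebraicClosure K) (RatFunc.X : RatFunc (AlgebraicClosure K)) := by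
    refine (isAlgebraic_algebraMap_iff ?_).1 h
    exact (algebraMap (RatFunc (AlgebraicClosure K))
      (AlgebraicClosure (RatFunc (AlgebraicClosure K)))).injective
  exact RatFunc.transcendental_X h1

theorem th_TOW : Pool.Agent.Helper60.TGX.S_TOW := by
  intro K _ _ J _ k _ _ _
  have hfin : ∀ j, FiniteDimensional K (k j) := fun j =>
    Module.Finite.of_restrictScalars_finite ℚ K (k j)
  set φ : ∀ j, k j →ₐ[K] AlgebraicClosure K := fun j => IsAlgClosed.lift with hφ
  have hfr : ∀ j, FiniteDimensional K (φ j).fieldRange := fun j =>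
    Module.Finite.of_surjective (φ j).rangeRestrict.toLinearMap (φ j).rangeRestrict_surjective
  set F : IntermediateField K (AlgebraicClosure K) := ⨆ j, (φ j).fieldRange with hF
  have hFf : FiniteDimensional K F := IntermediateField.finiteDimensional_iSup_of_finite
  have hmem : ∀ j (a : k j), φ j a ∈ F := fun j a =>
    (le_iSup (fun j => (φ j).fieldRange) j) ⟨a, rfl⟩
  let iA : ∀ j, Algebra (k j) F := fun j =>
    (((φ j : k j →+* AlgebraicClosure K)).codRestrict F (hmem j)).toAlgebra
  refine ⟨F, inferInstance, NumberField.of_module_finite K F, inferInstance, iA, fun j => ?_⟩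
  refine @IsScalarTower.of_algebraMap_eq K (k j) F _ _ _ _ (iA j) _ fun r => ?_
  refine Subtype.ext ?_
  exact ((φ j).commutes r).symm

end

end Pool.Agent.Helper3.TGX
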